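import Pool.Agent.X68.IrrCosetRing

/-!
A faithful irreducible coset space `G/H` with an abelian minimal nontrivial closed normal subgroup
`M` of `G` that is properly contained in its centraliser.
-/

namespace Pool.Agent.Results.MP_f36f0e_al.AbelianCentraliser

/-- `G/H` is an irreducible coset space: `H` is a closed proper subgroup and the only closed
subgroups of `G` containing `H` are `H` and `G`. -/
def IsIrreducibleCosetSpace {G : Type} [Group G] [TopologicalSpace G] (H : Subgroup G) : Prop :=
  IsClosed (H : Set G) ∧ H ≠ ⊤ ∧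
    ∀ K : Subgroup G, IsClosed (K : Set G) → H ≤ K → K = H ∨ K = ⊤

/-- `G/H` is faithful: the intersection of all conjugates `g H g⁻¹` is trivial. -/
def IsFaithfulCosetSpace {G : Type} [Group G] (H : Subgroup G) : Prop :=
  (⨅ g : G, H.map (MulAut.conj g).toMonoidHom) = ⊥

/-- The set of subgroups that are minimal among the nontrivial closed normal subgroups of `G`. -/
def minimalClosedNormal (G : Type) [Group G] [TopologicalSpace G] : Set (Subgroup G) :=
  {M | M.Normal ∧ IsClosed (M : Set G) ∧ M ≠ ⊥ ∧
    ∀ P : Subgroup G, P.Normal → IsClosed (P : Set G) → P ≤ M → P = ⊥ ∨ P = M}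

open Pool.Agent.X68.IrrCoset in
/-- There is a (Hausdorff) topological group `G` with a closed subgroup `H` such that `G/H` is a
faithful irreducible coset space and some abelian minimal nontrivial closed normal subgroup `M` of
`G` is properly contained in its centraliser. -/
theorem result : ∃ (G : Type) (_ : Group G) (_ : TopologicalSpace G) (_ : IsTopologicalGroup G)
    (_ : T2Space G) (H : Subgroup G),
    IsIrreducibleCosetSpace H ∧ IsFaithfulCosetSpace H ∧
    ∃ M ∈ minimalClosedNormal G, (∀ x ∈ M, ∀ y ∈ M, x * y = y * x) ∧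
      M < Subgroup.centralizer (M : Set G) := by
  refine ⟨SL3 R, inferInstance, inferInstance, inferInstance, SL3_t2, H data,
    ⟨H_closed data, H_ne_top data, irreducible data⟩, ?_, M (data.J 0),
    ⟨inferInstance, M_closed data 0, M_ne_bot data 0, ?_⟩, ?_, ?_, ?_⟩
  · unfold IsFaithfulCosetSpace
    rw [eq_bot_iff]
    intro c hc
    rw [Subgroup.mem_iInf] at hc
    rw [Subgroup.mem_bot]
    apply faithful data
    intro g
    obtain ⟨h, hh, hgh⟩ := hc g
    rw [← hgh]
    have : g⁻¹ * ((MulAut.conj g).toMonoidHom h) * g = h := by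
      change g⁻¹ * (g * h * g⁻¹) * g = h
      group
    rw [this]
    exact hh
  · intro P hPn hP hPM
    by_cases h : P = ⊥
    · left; exact h
    · right; exact minimal data 0 P hP hPn hPM h
  · intro x hx y hy
    exact comm_of data x y (fun i j => data.J_le 0 _ ((mem_M _ _).1 hx i j))
      (fun i j => data.J_le 0 _ ((mem_M _ _).1 hy i j))
  · intro x hx
    rw [Subgroup.mem_centralizer_iff]
    intro y hy
    exact comm_of data y x (fun i j => data.J_le 0 _ ((mem_M _ _).1 hy i j))
      (fun i j => data.J_le 0 _ ((mem_M _ _).1 hx i j))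
  · intro hle
    have h1 : e 0 1 (by decide) (data.w 1) ∈ M (data.J 1) := (e_w_mem_M data 1 1).2 rfl
    have h2 : e 0 1 (by decide) (data.w 1) ∈ M (data.J 0) := by
      apply hle
      rw [Subgroup.mem_centralizer_iff]
      intro y hy
      exact comm_of data y _ (fun i j => data.J_le 0 _ ((mem_M _ _).1 hy i j))
        (fun i j => data.J_le 1 _ ((mem_M _ _).1 h1 i j))
    exact absurd ((e_w_mem_M data 1 0).1 h2) (by decide)

end Pool.Agent.Results.MP_f36f0e_al.AbelianCentraliser
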